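import Mathlib
import Pool.Agent.TH202.Neg
import Pool.Agent.Y181.WLC

/-!
# There is no weak log canonical model

The pairs `(X, (2/3 + ε) S + β)` of `Pool.Agent.TH202.Ex`, `0 ≤ ε < 1/3`, are gklt, and for `ε > 0`
they have no weak log canonical model.
-/

set_option autoImplicit false

namespace Pool.Agent.X24.NM

open Pool.Agent.H436R3.Fol Pool.Agent.TH202 Pool.Agent.Y181 MvPolynomial

variable {K : Type} [Field K] [Algebra ℂ K]

/-- There is no weak log canonical model. -/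
theorem no_lc [Algebra.EssFiniteType ℂ K] {d : Dat K} (h : XiAlg d) (s : Sq d)
    (T : Foliation K 3) (hT : IsPd d T) {ε : ℝ} (hε : 0 < ε) (Y : Model K) (E : DVal K → ℝ) :
    ¬ IsWeakLCModel T (Xd d h) (Bd d ε) (bt s) (Dd s ε) Y E := by
  rintro ⟨hprime, hadj, hnef, hdisc⟩
  obtain ⟨vS, hvS, hvc, huniq⟩ := Pool.Agent.TH189.C8_VS.exists_vS d
  set X := Xd d h with hX
  set N : DVal K → ℝ := E - pr d with hN
  have hNnef : IsNef Y N := by
    refine ⟨hnef.1.sub (rcar_of_prin (pr_mem d)), fun δ hδ => ?_⟩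
    obtain ⟨F, hF, P, hP, hFP⟩ := hnef.2 δ hδ
    refine ⟨F, hF, P - pr d, (Prin K).sub_mem hP (pr_mem d), fun v => ?_⟩
    simp only [hN, Pi.sub_apply]
    linarith [hFP v]
  have hNY : ∀ w, IsPrimeOn Y w → N w = ε * Sb d w + bet s w := by
    intro w hw
    obtain ⟨⟨n, hn, hnf⟩, _⟩ := Pool.Agent.TH796.C8_XM2.prime_X d h T hT w (hprime w hw)
    have h1 := hadj.2 w hw n hn
    have h2 : (w.ord d.c : ℝ) = ps (w.ord d.c) - ng (w.ord d.c) := by
      rw [ps_eq]
      ring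
    simp only [hN, Pi.sub_apply, h1, hnf, Bd, bt, pr, Pi.add_apply, Pi.smul_apply, smul_eq_mul, dv,
      Sb]
    rw [h2]
    ring
  have hNX : ∀ w, IsPrimeOn X w → N w ≤ ε * Sb d w + bet s w := by
    intro w hw
    by_cases hwY : IsPrimeOn Y w
    · exact (hNY w hwY).le
    · have h1 := hdisc w hw hwY
      rw [Dd_eq] at h1
      simp only [hN, Pi.sub_apply]
      linarith
  have hbet := Pool.Agent.TH246.C8_POS.bet_nef h s
  have hge : ∀ v, bet s v ≤ N v := by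
    refine dom hbet hNnef.1 fun w hw => ?_
    rw [hNY w hw]
    have := mul_nonneg hε.le (Sb_nonneg d w)
    linarith
  have hyS : ∀ j, vS.ord (s.y j) = 0 := s.triv vS hvS
  have hAkS : ∀ j, Ak s j vS = 0 := by
    intro j
    change Th s (j + 1) vS + Th s j vS = 0
    rw [Pool.Agent.TH573.C8_NEFA.Th_eq, Pool.Agent.TH573.C8_NEFA.Th_eq, hyS, hyS]
    simp
  have hbetS : bet s vS = 0 := by
    change Ak s 2 vS - kap * Ak s 1 vS = 0
    rw [hAkS, hAkS]
    ring
  have haS : vS.ord d.a = 0 := by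
    have := hvS.1 (MvPolynomial.X 0) (X_ne_zero _)
    rwa [aeval_X] at this
  have hSbS : Sb d vS = 1 := by
    have h1 : mn d vS = 0 := by
      rw [mn, haS, Int.cast_zero]
      exact max_eq_left (min_le_left _ _)
    rw [Sb, h1, hvc, ps]
    simp
  have hSbR := rcar_Sb d h
  have hcase : ∀ w, IsPrimeOn X w → N w ≤ bet s w + N vS * Sb d w := by
    intro w hw
    by_cases h0 : Sb d w = 0
    · have h1 := hNX w hw
      rw [h0] at h1 ⊢
      linarith
    · have h1 := (Pool.Agent.TH796.C8_XM2.prime_X d h T hT w hw).2 h0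
      have h2 := huniq w h1
      rw [rcar_congr hNnef.1 h2, rcar_congr hbet.1 h2, rcar_congr hSbR h2, hbetS, hSbS]
      linarith
  have hle := c_step h s vS hvS hvc huniq Y N hNnef (N vS) rfl hcase
  have hge' := hge vS
  rw [hbetS] at hge'
  have hzero : N vS = 0 := le_antisymm hle hge'
  have hle' : ∀ v, N v ≤ bet s v := by
    refine dom hNnef hbet.1 fun w hw => ?_
    have := hcase w hw
    rw [hzero] at this
    linarith
  have hYS := b_step s vS hvS Y N hNnef.1 fun v => le_antisymm (hle' v) (hge v)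
  have hfin := hNY vS hYS
  rw [hzero, hbetS, hSbS] at hfin
  linarith

open Pool.Agent.TH246.C8_POS in
/-- The pairs are gklt, also for `ε = 0`. -/
theorem gklt [Algebra.EssFiniteType ℂ K] {d : Dat K} (h : XiAlg d) (s : Sq d)
    (T : Foliation K 3) (hT : IsPd d T) {ε : ℝ}
    (hε : 0 ≤ ε) (hε' : ε < 1 / 3) : IsGklt T (Xd d h) (Bd d ε) (bt s) (Dd s ε) := by
  refine ⟨fun w _ => ?_, ?_, ⟨_, bt_nef h s⟩, ⟨?_, ?_⟩, ?_⟩
  · exact mul_nonneg (by linarith) (Pool.Agent.TH246.C8_POS.Sb_nonneg d w)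
  · obtain ⟨z, -, -, hz⟩ := Pool.Agent.TH189.C8_VS.exists_vS d
    refine ⟨{z}, Set.finite_singleton z, fun w hw hB => ⟨z, rfl, ?_⟩⟩
    have h1 : Sb d w ≠ 0 := fun h0 => hB (by unfold Bd; rw [h0, mul_zero])
    exact hz w ((Pool.Agent.TH246.C8_POS.prime_X d h T hT w hw).2 h1)
  · rw [Pool.Agent.TH246.C8_POS.Dd_eq]
    exact rcar_add (rcar_add (rcar_smul _ (Pool.Agent.TH246.C8_POS.rcar_Sb d h)) (rcar_bet h s))
      (Pool.Agent.TH246.C8_POS.rcar_of_prin _ (Rd_mem d))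
  · intro w hw n hn
    obtain ⟨n', hn', h1⟩ := (Pool.Agent.TH246.C8_POS.prime_X d h T hT w hw).1
    have h2 : n = n' := IsLeast.unique hn hn'
    subst h2
    have h3 := Pool.Agent.TH246.C8_POS.ps_eq (w.ord d.c)
    unfold Dd Bd bt Sb
    rw [h1, h3]
    ring
  · intro v _ n hn
    have h1 := Pool.Agent.TH986.C8_GKLT.gklt_bound d T hT ε hε hε' v n hn
    have h2 := mul_nonneg hε (mn_nonneg d v)
    have h3 : 1 + (n : ℝ) + bt s v - Dd s ε v = (1 + (n : ℝ)
      - 2 / 3 * (v.ord ((1 - d.a ^ 2) / d.a ^ 2) : ℝ)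
      - 2 / 3 * (v.ord ((1 - d.b ^ 2) / d.b ^ 2) : ℝ) - 2 * (v.ord d.a : ℝ) - 2 * (v.ord d.b : ℝ)
      + 2 * ng (v.ord d.c) - (2 / 3 + ε) * ps (v.ord d.c)) + ε * mn d v := by
      unfold Dd bt Sb
      rw [Pool.Agent.TH246.C8_POS.ps_eq]
      ring
    rw [h3]
    linarith

/-- The class `N = K_X + (2/3) S + β_X` is nef. -/
theorem nef_N {d : Dat K} (h : XiAlg d) (s : Sq d) : IsNef (Xd d h) (bet s + pr d) := by
  have hb := Pool.Agent.TH246.C8_POS.bet_nef h s
  refine ⟨Pool.Agent.TH246.C8_POS.rcar_add hb.1 (rcar_of_prin (pr_mem d)), fun δ hδ => ?_⟩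
  obtain ⟨F, hF, P, hP, hFP⟩ := hb.2 δ hδ
  refine ⟨F, hF, P + pr d, (Prin K).add_mem hP (pr_mem d), fun v => ?_⟩
  simp only [Pi.add_apply]
  linarith [hFP v]

/-- `S` is a prime divisor on `X`. -/
theorem prime_S {d : Dat K} (h : XiAlg d) [Algebra.EssFiniteType ℂ K] (s : Sq d)
    (T : Foliation K 3) (hT : IsPd d T) : ∃ z, IsPrimeOn (Xd d h) z ∧ Sb d z = 1 ∧
      ∀ w, IsPrimeOn (Xd d h) w → ¬ Same w z → Sb d w = 0 := by
  obtain ⟨vS, hvS, hvc, huniq⟩ := Pool.Agent.TH189.C8_VS.exists_vS d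
  have haS : vS.ord d.a = 0 := by
    have := hvS.1 (MvPolynomial.X 0) (X_ne_zero _)
    rwa [aeval_X] at this
  have hSbS : Sb d vS = 1 := by
    have h1 : mn d vS = 0 := by
      rw [mn, haS, Int.cast_zero]
      exact max_eq_left (min_le_left _ _)
    rw [Sb, h1, hvc, ps]
    simp
  refine ⟨vS, ?_, hSbS, fun w hw hne => ?_⟩
  · exact b_step s vS hvS (Xd d h) (bet s) (Pool.Agent.TH246.C8_POS.bet_nef h s).1 fun v => rfl
  · by_contra h0
    exact hne (huniq w ((Pool.Agent.TH796.C8_XM2.prime_X d h T hT w hw).2 h0))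

end Pool.Agent.X24.NM
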